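import Pool.Agent.TH931.LP.StmC

/-!
# Lower bounds of the mean gain
-/

set_option autoImplicit false

open MeasureTheory Set
open scoped ENNReal

noncomputable section

namespace Pool.Agent.TH263.LP931

open Pool.Agent.TH931.LP

/-- triple integral -/
def I3 (F : ℝ → ℝ → ℝ → ℝ≥0∞) : ℝ≥0∞ :=
  ∫⁻ x in Ioi (0 : ℝ), ∫⁻ z in Ioi (0 : ℝ), ∫⁻ s in Ioi (0 : ℝ), F x z s

theorem I3_mono {F G : ℝ → ℝ → ℝ → ℝ≥0∞}
    (h : ∀ x, 0 < x → ∀ z, 0 < z → ∀ s, 0 < s → F x z s ≤ G x z s) : I3 F ≤ I3 G :=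
  setLIntegral_mono' measurableSet_Ioi fun x hx => setLIntegral_mono' measurableSet_Ioi
    fun z hz => setLIntegral_mono' measurableSet_Ioi fun s hs => h x hx z hz s hs

theorem I3_congr {F G : ℝ → ℝ → ℝ → ℝ≥0∞}
    (h : ∀ x, 0 < x → ∀ z, 0 < z → ∀ s, 0 < s → F x z s = G x z s) : I3 F = I3 G :=
  le_antisymm (I3_mono fun x hx z hz s hs => (h x hx z hz s hs).le)
    (I3_mono fun x hx z hz s hs => (h x hx z hz s hs).ge)

theorem I3_add {F : ℝ → ℝ → ℝ → ℝ≥0∞} (G : ℝ → ℝ → ℝ → ℝ≥0∞)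
    (hF : Measurable fun p : ℝ × ℝ × ℝ => F p.1 p.2.1 p.2.2) :
    I3 (fun x z s => F x z s + G x z s) = I3 F + I3 G := by
  unfold I3
  have m1 : Measurable fun q : ℝ × ℝ => ∫⁻ s in Ioi (0 : ℝ), F q.1 q.2 s := by
    have : Measurable fun p : (ℝ × ℝ) × ℝ => F p.1.1 p.1.2 p.2 :=
      hF.comp ((measurable_fst.comp measurable_fst).prodMk
        ((measurable_snd.comp measurable_fst).prodMk measurable_snd))
    exact this.lintegral_prod_right'
  have m2 : Measurable fun x : ℝ => ∫⁻ z in Ioi (0 : ℝ), ∫⁻ s in Ioi (0 : ℝ), F x z s :=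
    m1.lintegral_prod_right'
  have e3 : ∀ x z : ℝ, ∫⁻ s in Ioi (0 : ℝ), (F x z s + G x z s)
      = (∫⁻ s in Ioi (0 : ℝ), F x z s) + (∫⁻ s in Ioi (0 : ℝ), G x z s) := by
    intro x z
    have hm : Measurable fun s : ℝ => F x z s := hF.comp
      (measurable_const.prodMk (measurable_const.prodMk measurable_id))
    exact lintegral_add_left hm _
  have e2 : ∀ x : ℝ, ∫⁻ z in Ioi (0 : ℝ), ((∫⁻ s in Ioi (0 : ℝ), F x z s) +
      (∫⁻ s in Ioi (0 : ℝ), G x z s)) = (∫⁻ z in Ioi (0 : ℝ), ∫⁻ s in Ioi (0 : ℝ), F x z s) +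
      (∫⁻ z in Ioi (0 : ℝ), ∫⁻ s in Ioi (0 : ℝ), G x z s) := by
    intro x
    have hm : Measurable fun z : ℝ => ∫⁻ s in Ioi (0 : ℝ), F x z s :=
      m1.comp (measurable_const.prodMk measurable_id)
    exact lintegral_add_left hm _
  have e1 : ∫⁻ x in Ioi (0 : ℝ), ((∫⁻ z in Ioi (0 : ℝ), ∫⁻ s in Ioi (0 : ℝ), F x z s) +
      (∫⁻ z in Ioi (0 : ℝ), ∫⁻ s in Ioi (0 : ℝ), G x z s))
      = (∫⁻ x in Ioi (0 : ℝ), ∫⁻ z in Ioi (0 : ℝ), ∫⁻ s in Ioi (0 : ℝ), F x z s) +
      (∫⁻ x in Ioi (0 : ℝ), ∫⁻ z in Ioi (0 : ℝ), ∫⁻ s in Ioi (0 : ℝ), G x z s) :=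
    lintegral_add_left m2 _
  rw [← e1]
  refine lintegral_congr fun x => ?_
  rw [← e2]
  exact lintegral_congr fun z => e3 x z

/-- scaling -/
theorem scale {a : ℝ} (ha : 0 < a) (g : ℝ → ℝ≥0∞) :
    ∫⁻ x in Ioi (0 : ℝ), g x = ∫⁻ x in Ioi (0 : ℝ), ENNReal.ofReal a * g (a * x) := by
  have h := lintegral_image_eq_lintegral_abs_deriv_mul (s := Ioi (0 : ℝ)) (f := fun x => a * x)
    (f' := fun _ => a) measurableSet_Ioi
    (fun x _ => by simpa using ((hasDerivAt_id' x).const_mul a).hasDerivWithinAt)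
    (fun x _ y _ hxy => mul_left_cancel₀ ha.ne' hxy) g
  have h2 : (fun x : ℝ => a * x) '' Ioi (0 : ℝ) = Ioi (0 : ℝ) := by
    ext y
    constructor
    · rintro ⟨x, hx, rfl⟩
      exact mul_pos ha hx
    · intro hy
      exact ⟨y / a, div_pos hy ha, by field_simp⟩
  rw [h2, abs_of_pos ha] at h
  exact h

/-- translation -/
theorem shift (x : ℝ) (g : ℝ → ℝ≥0∞) :
    ∫⁻ y in Ioi x, g y = ∫⁻ z in Ioi (0 : ℝ), g (x + z) := by
  have h := lintegral_image_eq_lintegral_abs_deriv_mul (s := Ioi (0 : ℝ)) (f := fun z => x + z)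
    (f' := fun _ => 1) measurableSet_Ioi
    (fun z _ => ((hasDerivAt_id' z).const_add x).hasDerivWithinAt)
    (fun z _ y _ hxy => add_left_cancel hxy) g
  have h2 : (fun z : ℝ => x + z) '' Ioi (0 : ℝ) = Ioi x := by
    ext y
    constructor
    · rintro ⟨z, hz, rfl⟩
      have : 0 < z := hz
      show x < x + z
      linarith
    · intro hy
      have hy' : x < y := hy
      exact ⟨y - x, by show (0 : ℝ) < y - x; linarith, by simp⟩
  rw [h2] at h
  simpa using h

theorem exp_Ioi (y : ℝ) : ∫⁻ x in Ioi y, ENNReal.ofReal (Real.exp (-x))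
    = ENNReal.ofReal (Real.exp (-y)) := by
  rw [← ofReal_integral_eq_lintegral_ofReal, integral_exp_neg_Ioi]
  · exact integrableOn_exp_neg_Ioi y
  · exact Filter.Eventually.of_forall fun x => (Real.exp_pos _).le

theorem exp_one : ∫⁻ x in Ioi (0 : ℝ), ENNReal.ofReal (Real.exp (-x)) = 1 := by
  rw [exp_Ioi]; simp

theorem exp_mul {a : ℝ} (ha : 0 < a) :
    ∫⁻ x in Ioi (0 : ℝ), ENNReal.ofReal (a * Real.exp (-(a * x))) = 1 := by
  have h := scale ha fun x => ENNReal.ofReal (Real.exp (-x))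
  rw [exp_one] at h
  rw [h]
  refine lintegral_congr fun x => ?_
  rw [ENNReal.ofReal_mul ha.le]

/-- the inner integral -/
def ph (y : ℝ) : ℝ≥0∞ :=
  ∫⁻ s in Ioi (0 : ℝ), ENNReal.ofReal (Real.exp (-s) * Real.log (1 + s / (2 * y)))

theorem ph_meas : Measurable ph := by
  have : Measurable fun p : ℝ × ℝ =>
      ENNReal.ofReal (Real.exp (-p.2) * Real.log (1 + p.2 / (2 * p.1))) := by fun_prop
  exact this.lintegral_prod_right'

theorem ph_eq (h1 : S_z5a) {κ : ℝ} (hκ : 0 < κ) :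
    ∫⁻ y in Ioi (0 : ℝ), ENNReal.ofReal (κ * Real.exp (-(κ * y))) * ph y
      = ENNReal.ofReal (LL (κ / 2)) := by
  have h := scale (a := 2) (by norm_num) fun x => ∫⁻ s in Ioi (0 : ℝ),
    ENNReal.ofReal (κ / 2 * Real.exp (-(κ / 2 * x + s)) * Real.log (1 + s / x))
  rw [← h1 (κ / 2) (by positivity), h]
  refine lintegral_congr fun x => ?_
  unfold ph
  rw [← lintegral_const_mul' _ _ ENNReal.ofReal_ne_top,
    ← lintegral_const_mul' _ _ ENNReal.ofReal_ne_top]
  refine lintegral_congr fun s => ?_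
  rw [← ENNReal.ofReal_mul (by positivity), ← ENNReal.ofReal_mul (by norm_num)]
  congr 1
  have : Real.exp (-(κ / 2 * (2 * x) + s)) = Real.exp (-(κ * x)) * Real.exp (-s) := by
    rw [← Real.exp_add]; congr 1; ring
  rw [this]
  ring

variable (c : ℕ)

/-- the weight -/
def Wt (x z s : ℝ) : ℝ≥0∞ :=
  ENNReal.ofReal (((c : ℝ) + 1) * c * Real.exp (-(((c : ℝ) + 1) * x + c * z + s)))

theorem Wt_meas : Measurable fun p : ℝ × ℝ × ℝ => Wt c p.1 p.2.1 p.2.2 := by
  unfold Wt; fun_prop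

theorem Wt_eq (x z s : ℝ) : Wt c x z s =
    ENNReal.ofReal (((c : ℝ) + 1) * Real.exp (-(((c : ℝ) + 1) * x))) *
      (ENNReal.ofReal ((c : ℝ) * Real.exp (-((c : ℝ) * z))) * ENNReal.ofReal (Real.exp (-s))) := by
  unfold Wt
  rw [← ENNReal.ofReal_mul (by positivity), ← ENNReal.ofReal_mul (by positivity)]
  congr 1
  have : Real.exp (-(((c : ℝ) + 1) * x + c * z + s)) =
      Real.exp (-(((c : ℝ) + 1) * x)) * (Real.exp (-((c : ℝ) * z)) * Real.exp (-s)) := by
    rw [← Real.exp_add, ← Real.exp_add]; congr 1; ring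
  rw [this]; ring

/-- functions of `x` and `s` -/
theorem I3_xs (hc : 1 ≤ c) (f : ℝ → ℝ → ℝ) :
    I3 (fun x z s => Wt c x z s * ENNReal.ofReal (f x s)) =
    ∫⁻ x in Ioi (0 : ℝ), ENNReal.ofReal (((c : ℝ) + 1) * Real.exp (-(((c : ℝ) + 1) * x))) *
      ∫⁻ s in Ioi (0 : ℝ), ENNReal.ofReal (Real.exp (-s) * f x s) := by
  have hc' : (0 : ℝ) < c := by exact_mod_cast hc
  unfold I3
  refine lintegral_congr fun x => ?_
  have h1 : ∀ z : ℝ, ∫⁻ s in Ioi (0 : ℝ), Wt c x z s * ENNReal.ofReal (f x s) =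
      ENNReal.ofReal ((c : ℝ) * Real.exp (-((c : ℝ) * z))) *
      (ENNReal.ofReal (((c : ℝ) + 1) * Real.exp (-(((c : ℝ) + 1) * x))) *
      ∫⁻ s in Ioi (0 : ℝ), ENNReal.ofReal (Real.exp (-s) * f x s)) := by
    intro z
    rw [← lintegral_const_mul' _ _ ENNReal.ofReal_ne_top,
      ← lintegral_const_mul' _ _ ENNReal.ofReal_ne_top]
    refine lintegral_congr fun s => ?_
    rw [Wt_eq, ENNReal.ofReal_mul (Real.exp_pos (-s)).le]
    ring
  rw [lintegral_congr fun z => h1 z]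
  have h2 := exp_mul hc'
  have h3 : ∀ K : ℝ≥0∞, ∫⁻ z in Ioi (0 : ℝ),
      ENNReal.ofReal ((c : ℝ) * Real.exp (-((c : ℝ) * z))) * K = K := by
    intro K
    rw [lintegral_mul_const, h2, one_mul]
    fun_prop
  rw [h3]

theorem I3_A (h1 : S_z5a) (hc : 1 ≤ c) :
    I3 (fun x z s => Wt c x z s * ENNReal.ofReal (Real.log (1 + s / (2 * x)))) =
    ENNReal.ofReal (LL (((c : ℝ) + 1) / 2)) := by
  rw [I3_xs c hc fun x s => Real.log (1 + s / (2 * x))]
  exact ph_eq h1 (by positivity)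

theorem I3_one (hc : 1 ≤ c) : I3 (fun x z s => Wt c x z s) = 1 := by
  have h := I3_xs c hc fun _ _ => 1
  simp only [ENNReal.ofReal_one, mul_one] at h
  rw [h, exp_one]
  simp only [mul_one]
  exact exp_mul (by positivity)

theorem I3_const (hc : 1 ≤ c) {d : ℝ} (hd : 0 ≤ d) :
    I3 (fun x z s => Wt c x z s * ENNReal.ofReal d) = ENNReal.ofReal d := by
  have h := I3_xs c hc fun _ _ => d
  rw [h]
  have h2 : ∫⁻ s in Ioi (0 : ℝ), ENNReal.ofReal (Real.exp (-s) * d) = ENNReal.ofReal d := by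
    have : ∀ s : ℝ, ENNReal.ofReal (Real.exp (-s) * d)
        = ENNReal.ofReal d * ENNReal.ofReal (Real.exp (-s)) := by
      intro s; rw [mul_comm, ENNReal.ofReal_mul hd]
    rw [lintegral_congr this, lintegral_const_mul' _ _ ENNReal.ofReal_ne_top, exp_one, mul_one]
  rw [h2, lintegral_mul_const, exp_mul (by positivity), one_mul]
  fun_prop

/-- the triangle -/
theorem tri {k : ℝ → ℝ≥0∞} (hk : Measurable k) :
    (∫⁻ x in Ioi (0 : ℝ), ∫⁻ y in Ioi x, ENNReal.ofReal (Real.exp (-x)) * k y) +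
      ∫⁻ y in Ioi (0 : ℝ), ENNReal.ofReal (Real.exp (-y)) * k y = ∫⁻ y in Ioi (0 : ℝ), k y := by
  have h1 : ∀ x ∈ Ioi (0 : ℝ), ∫⁻ y in Ioi x, ENNReal.ofReal (Real.exp (-x)) * k y =
      ∫⁻ y in Ioi (0 : ℝ), (if x < y then ENNReal.ofReal (Real.exp (-x)) * k y else 0) := by
    intro x hx
    have hx0 : (0 : ℝ) < x := hx
    have h2 : (fun y : ℝ => if x < y then ENNReal.ofReal (Real.exp (-x)) * k y else 0) =
        (Ioi x).indicator fun y => ENNReal.ofReal (Real.exp (-x)) * k y := by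
      funext y
      simp only [Set.indicator, mem_Ioi]
    rw [h2, lintegral_indicator measurableSet_Ioi, Measure.restrict_restrict measurableSet_Ioi]
    congr 2
    rw [Ioi_inter_Ioi]
    congr 1
    exact (max_eq_left hx0.le).symm
  have hmeas : Measurable (Function.uncurry fun x y : ℝ =>
      if x < y then ENNReal.ofReal (Real.exp (-x)) * k y else 0) := by
    refine Measurable.ite (measurableSet_lt measurable_fst measurable_snd) ?_ measurable_const
    exact (by fun_prop : Measurable fun p : ℝ × ℝ => ENNReal.ofReal (Real.exp (-p.1))).mul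
      (hk.comp measurable_snd)
  rw [setLIntegral_congr_fun measurableSet_Ioi h1, lintegral_lintegral_swap hmeas.aemeasurable,
    ← lintegral_add_right _ (by
      exact (by fun_prop : Measurable fun y : ℝ => ENNReal.ofReal (Real.exp (-y))).mul hk)]
  refine setLIntegral_congr_fun measurableSet_Ioi fun y hy => ?_
  have hy0 : (0 : ℝ) < y := hy
  have h3 : ∫⁻ x in Ioi (0 : ℝ), (if x < y then ENNReal.ofReal (Real.exp (-x)) * k y else 0) =
      (∫⁻ x in Ioo (0 : ℝ) y, ENNReal.ofReal (Real.exp (-x))) * k y := by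
    rw [← lintegral_mul_const _ (by fun_prop)]
    have h2 : (fun x : ℝ => if x < y then ENNReal.ofReal (Real.exp (-x)) * k y else 0) =
        (Iio y).indicator fun x => ENNReal.ofReal (Real.exp (-x)) * k y := by
      funext x
      simp only [Set.indicator, mem_Iio]
    rw [h2, lintegral_indicator measurableSet_Iio, Measure.restrict_restrict measurableSet_Iio]
    congr 2
    rw [inter_comm]
    rfl
  rw [h3, ← add_mul]
  have h4 : (∫⁻ x in Ioo (0 : ℝ) y, ENNReal.ofReal (Real.exp (-x))) +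
      ENNReal.ofReal (Real.exp (-y)) = 1 := by
    rw [← exp_Ioi y, ← exp_one]
    have h5 : Ioi (0 : ℝ) = Ioo 0 y ∪ Ici y := (Ioo_union_Ici_eq_Ioi hy0).symm
    rw [h5, lintegral_union measurableSet_Ici (by
      rw [Set.disjoint_left]
      intro x hx hx'
      exact absurd hx.2 (not_lt.2 hx'))]
    congr 1
    exact (setLIntegral_congr Ioi_ae_eq_Ici)
  rw [h4, one_mul]

theorem I3_B (h1 : S_z5a) (hc : 1 ≤ c) :
    I3 (fun x z s => Wt c x z s * ENNReal.ofReal (Real.log (1 + s / (2 * (x + z))))) +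
      ENNReal.ofReal (c * LL (((c : ℝ) + 1) / 2)) =
    ENNReal.ofReal (((c : ℝ) + 1) * LL ((c : ℝ) / 2)) := by
  have hc' : (0 : ℝ) < c := by exact_mod_cast hc
  set k : ℝ → ℝ≥0∞ := fun y =>
    ENNReal.ofReal (((c : ℝ) + 1) * (c * Real.exp (-((c : ℝ) * y)))) * ph y with hk
  have hkm : Measurable k := by
    rw [hk]
    exact (by fun_prop : Measurable fun y : ℝ =>
      ENNReal.ofReal (((c : ℝ) + 1) * (c * Real.exp (-((c : ℝ) * y))))).mul ph_meas
  have e1 : I3 (fun x z s => Wt c x z s * ENNReal.ofReal (Real.log (1 + s / (2 * (x + z))))) =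
      ∫⁻ x in Ioi (0 : ℝ), ∫⁻ y in Ioi x, ENNReal.ofReal (Real.exp (-x)) * k y := by
    unfold I3
    refine lintegral_congr fun x => ?_
    rw [shift x]
    refine lintegral_congr fun z => ?_
    rw [hk]
    simp only
    unfold ph
    rw [← lintegral_const_mul' _ _ ENNReal.ofReal_ne_top,
      ← lintegral_const_mul' _ _ ENNReal.ofReal_ne_top]
    refine lintegral_congr fun s => ?_
    unfold Wt
    rw [ENNReal.ofReal_mul (Real.exp_pos (-s)).le, ← mul_assoc, ← mul_assoc]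
    congr 1
    rw [← ENNReal.ofReal_mul (by positivity), ← ENNReal.ofReal_mul (by positivity)]
    congr 1
    have : Real.exp (-(((c : ℝ) + 1) * x + c * z + s)) =
        Real.exp (-x) * (Real.exp (-((c : ℝ) * (x + z))) * Real.exp (-s)) := by
      rw [← Real.exp_add, ← Real.exp_add]; congr 1; ring
    rw [this]; ring
  have e2 : ∫⁻ y in Ioi (0 : ℝ), ENNReal.ofReal (Real.exp (-y)) * k y =
      ENNReal.ofReal (c * LL (((c : ℝ) + 1) / 2)) := by
    rw [ENNReal.ofReal_mul hc'.le, ← ph_eq h1 (by positivity : (0 : ℝ) < (c : ℝ) + 1),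
      ← lintegral_const_mul' _ _ ENNReal.ofReal_ne_top]
    refine lintegral_congr fun y => ?_
    rw [hk]
    simp only
    rw [← mul_assoc (ENNReal.ofReal (Real.exp (-y))), ← mul_assoc (ENNReal.ofReal (c : ℝ))]
    congr 1
    rw [← ENNReal.ofReal_mul (Real.exp_pos _).le, ← ENNReal.ofReal_mul hc'.le]
    congr 1
    have : Real.exp (-(((c : ℝ) + 1) * y)) = Real.exp (-y) * Real.exp (-((c : ℝ) * y)) := by
      rw [← Real.exp_add]; congr 1; ring
    rw [this]; ring
  have e3 : ∫⁻ y in Ioi (0 : ℝ), k y = ENNReal.ofReal (((c : ℝ) + 1) * LL ((c : ℝ) / 2)) := by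
    rw [ENNReal.ofReal_mul (by positivity), ← ph_eq h1 hc',
      ← lintegral_const_mul' _ _ ENNReal.ofReal_ne_top]
    refine lintegral_congr fun y => ?_
    rw [hk]
    simp only
    rw [ENNReal.ofReal_mul (by positivity), mul_assoc]
  rw [e1, ← e2, tri hkm, e3]

/-- the third term, first bound -/
theorem I3_D2 (hc : 1 ≤ c) :
    I3 (fun x z s => Wt c x z s *
      ENNReal.ofReal (Real.log (1 + s / (s + 2 * x + 2 * (x + z))))) ≤
    ENNReal.ofReal (Real.log 2) := by
  rw [← I3_const c hc (Real.log_nonneg (by norm_num : (1 : ℝ) ≤ 2))]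
  refine I3_mono fun x hx z hz s hs => ?_
  gcongr
  have : s / (s + 2 * x + 2 * (x + z)) ≤ 1 := by
    rw [div_le_one (by positivity)]; linarith
  linarith

theorem tangent {t : ℝ} (ht : 0 ≤ t) :
    Real.log (1 + t) ≤ (Real.log (3 / 2) - 1 / 3) + 2 / 3 * t := by
  have h := Real.log_le_sub_one_of_pos (x := (1 + t) / (3 / 2)) (by positivity)
  rw [Real.log_div (by positivity) (by norm_num)] at h
  linarith

theorem tangent0 : 0 ≤ Real.log (3 / 2) - 1 / 3 := by
  have h := tangent (t := 0) le_rfl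
  rw [add_zero, Real.log_one] at h
  linarith

theorem half : ∫⁻ x in Ioi (0 : ℝ), ∫⁻ s in Ioi (0 : ℝ),
    ENNReal.ofReal (Real.exp (-(x + s)) * (s / (s + x))) = ENNReal.ofReal (1 / 2) := by
  set K := ∫⁻ x in Ioi (0 : ℝ), ∫⁻ s in Ioi (0 : ℝ),
    ENNReal.ofReal (Real.exp (-(x + s)) * (s / (s + x))) with hK
  have hm : Measurable (Function.uncurry fun x s : ℝ =>
      ENNReal.ofReal (Real.exp (-(x + s)) * (s / (s + x)))) := by
    show Measurable fun p : ℝ × ℝ => ENNReal.ofReal (Real.exp (-(p.1 + p.2)) * (p.2 / (p.2 + p.1)))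
    fun_prop
  have h1 : K = ∫⁻ x in Ioi (0 : ℝ), ∫⁻ s in Ioi (0 : ℝ),
      ENNReal.ofReal (Real.exp (-(x + s)) * (x / (s + x))) := by
    rw [hK, lintegral_lintegral_swap hm.aemeasurable]
    refine lintegral_congr fun x => lintegral_congr fun s => ?_
    rw [add_comm s x]
  have h2 : K + K = 1 := by
    nth_rewrite 2 [h1]
    have hm1 : Measurable fun x : ℝ => ∫⁻ s in Ioi (0 : ℝ),
        ENNReal.ofReal (Real.exp (-(x + s)) * (s / (s + x))) := hm.lintegral_prod_right'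
    rw [hK, ← lintegral_add_left hm1]
    have h3 : ∀ x ∈ Ioi (0 : ℝ), (∫⁻ s in Ioi (0 : ℝ),
        ENNReal.ofReal (Real.exp (-(x + s)) * (s / (s + x)))) + (∫⁻ s in Ioi (0 : ℝ),
        ENNReal.ofReal (Real.exp (-(x + s)) * (x / (s + x)))) =
        ENNReal.ofReal (Real.exp (-x)) := by
      intro x hx
      have hx0 : (0 : ℝ) < x := hx
      rw [← lintegral_add_left (by fun_prop)]
      have h4 : ∀ s ∈ Ioi (0 : ℝ), ENNReal.ofReal (Real.exp (-(x + s)) * (s / (s + x))) +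
          ENNReal.ofReal (Real.exp (-(x + s)) * (x / (s + x))) =
          ENNReal.ofReal (Real.exp (-x)) * ENNReal.ofReal (Real.exp (-s)) := by
        intro s hs
        have hs0 : (0 : ℝ) < s := hs
        rw [← ENNReal.ofReal_add (by positivity) (by positivity),
          ← ENNReal.ofReal_mul (Real.exp_pos _).le, ← Real.exp_add]
        congr 1
        rw [← mul_add, ← add_div, div_self (by positivity), mul_one]
        congr 1; ring
      rw [setLIntegral_congr_fun measurableSet_Ioi h4,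
        lintegral_const_mul' _ _ ENNReal.ofReal_ne_top, exp_one, mul_one]
    rw [setLIntegral_congr_fun measurableSet_Ioi h3, exp_one]
  have hKt : K ≠ ⊤ := by
    intro h
    rw [h] at h2
    simp at h2
  rw [← ENNReal.ofReal_toReal hKt]
  congr 1
  have h5 := congrArg ENNReal.toReal h2
  rw [ENNReal.toReal_add hKt hKt, ENNReal.toReal_one] at h5
  linarith

theorem I3_t (hc : 1 ≤ c) (hc3 : c ≤ 3) :
    I3 (fun x z s => Wt c x z s * ENNReal.ofReal (s / (s + 4 * x))) ≤ ENNReal.ofReal (1 / 2) := by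
  have hN : (0 : ℝ) < (c : ℝ) + 1 := by positivity
  have hN4 : (c : ℝ) + 1 ≤ 4 := by
    have : (c : ℝ) ≤ 3 := by exact_mod_cast hc3
    linarith
  rw [I3_xs c hc fun x s => s / (s + 4 * x), ← half, scale hN fun x => ∫⁻ s in Ioi (0 : ℝ),
    ENNReal.ofReal (Real.exp (-(x + s)) * (s / (s + x)))]
  refine setLIntegral_mono' measurableSet_Ioi fun x hx => ?_
  have hx0 : (0 : ℝ) < x := hx
  rw [← lintegral_const_mul' _ _ ENNReal.ofReal_ne_top,
    ← lintegral_const_mul' _ _ ENNReal.ofReal_ne_top]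
  refine setLIntegral_mono' measurableSet_Ioi fun s hs => ?_
  have hs0 : (0 : ℝ) < s := hs
  rw [← ENNReal.ofReal_mul (by positivity), ← ENNReal.ofReal_mul (by positivity)]
  refine ENNReal.ofReal_le_ofReal ?_
  have h1 : Real.exp (-(((c : ℝ) + 1) * x + s)) =
      Real.exp (-(((c : ℝ) + 1) * x)) * Real.exp (-s) := by
    rw [← Real.exp_add]; congr 1; ring
  rw [h1]
  have h2 : s / (s + 4 * x) ≤ s / (s + ((c : ℝ) + 1) * x) := by
    gcongr
  have h3 : 0 ≤ ((c : ℝ) + 1) * Real.exp (-(((c : ℝ) + 1) * x)) * Real.exp (-s) := by positivity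
  calc ((c : ℝ) + 1) * Real.exp (-(((c : ℝ) + 1) * x)) * (Real.exp (-s) * (s / (s + 4 * x)))
      = ((c : ℝ) + 1) * Real.exp (-(((c : ℝ) + 1) * x)) * Real.exp (-s) * (s / (s + 4 * x)) := by
        ring
    _ ≤ ((c : ℝ) + 1) * Real.exp (-(((c : ℝ) + 1) * x)) * Real.exp (-s) *
        (s / (s + ((c : ℝ) + 1) * x)) := mul_le_mul_of_nonneg_left h2 h3
    _ = _ := by ring

/-- the third term, second bound -/
theorem I3_D32 (hc : 1 ≤ c) (hc3 : c ≤ 3) :
    I3 (fun x z s => Wt c x z s *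
      ENNReal.ofReal (Real.log (1 + s / (s + 2 * x + 2 * (x + z))))) ≤
    ENNReal.ofReal (Real.log (3 / 2)) := by
  have h1 : I3 (fun x z s => Wt c x z s *
      ENNReal.ofReal (Real.log (1 + s / (s + 2 * x + 2 * (x + z))))) ≤
      I3 (fun x z s => Wt c x z s * ENNReal.ofReal (Real.log (3 / 2) - 1 / 3) +
        ENNReal.ofReal (2 / 3) * (Wt c x z s * ENNReal.ofReal (s / (s + 4 * x)))) := by
    refine I3_mono fun x hx z hz s hs => ?_
    have h2 : s / (s + 2 * x + 2 * (x + z)) ≤ s / (s + 4 * x) :=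
      div_le_div_of_nonneg_left hs.le (by positivity) (by linarith)
    have h3 : 0 ≤ s / (s + 2 * x + 2 * (x + z)) := by positivity
    have h4 := tangent h3
    have h5 : ENNReal.ofReal (Real.log (1 + s / (s + 2 * x + 2 * (x + z)))) ≤
        ENNReal.ofReal (Real.log (3 / 2) - 1 / 3) +
          ENNReal.ofReal (2 / 3) * ENNReal.ofReal (s / (s + 4 * x)) := by
      rw [← ENNReal.ofReal_mul (by norm_num), ← ENNReal.ofReal_add tangent0 (by positivity)]
      exact ENNReal.ofReal_le_ofReal (by linarith)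
    calc Wt c x z s * ENNReal.ofReal (Real.log (1 + s / (s + 2 * x + 2 * (x + z))))
        ≤ Wt c x z s * (ENNReal.ofReal (Real.log (3 / 2) - 1 / 3) +
          ENNReal.ofReal (2 / 3) * ENNReal.ofReal (s / (s + 4 * x))) := by gcongr
      _ = _ := by ring
  have h6 : I3 (fun x z s => Wt c x z s * ENNReal.ofReal (Real.log (3 / 2) - 1 / 3) +
        ENNReal.ofReal (2 / 3) * (Wt c x z s * ENNReal.ofReal (s / (s + 4 * x)))) =
      I3 (fun x z s => Wt c x z s * ENNReal.ofReal (Real.log (3 / 2) - 1 / 3)) +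
      I3 (fun x z s => ENNReal.ofReal (2 / 3) * (Wt c x z s * ENNReal.ofReal (s / (s + 4 * x)))) :=
    I3_add _ ((Wt_meas c).mul_const _)
  have h7 : I3 (fun x z s => ENNReal.ofReal (2 / 3) *
      (Wt c x z s * ENNReal.ofReal (s / (s + 4 * x)))) =
      ENNReal.ofReal (2 / 3) * I3 (fun x z s => Wt c x z s * ENNReal.ofReal (s / (s + 4 * x))) := by
    unfold I3
    rw [← lintegral_const_mul' _ _ ENNReal.ofReal_ne_top]
    refine lintegral_congr fun x => ?_
    rw [← lintegral_const_mul' _ _ ENNReal.ofReal_ne_top]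
    refine lintegral_congr fun z => ?_
    rw [← lintegral_const_mul' _ _ ENNReal.ofReal_ne_top]
  refine h1.trans ?_
  rw [h6, h7, I3_const c hc tangent0]
  have h8 : ENNReal.ofReal (2 / 3) * I3 (fun x z s => Wt c x z s * ENNReal.ofReal (s / (s + 4 * x)))
      ≤ ENNReal.ofReal (2 / 3) * ENNReal.ofReal (1 / 2) := by
    gcongr
    exact I3_t c hc hc3
  refine (add_le_add_right h8 _).trans (le_of_eq ?_)
  rw [← ENNReal.ofReal_mul (by norm_num), ← ENNReal.ofReal_add tangent0 (by norm_num)]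
  congr 1
  ring

theorem gain_ge {x z s : ℝ} (hx : 0 < x) (hz : 0 < z) (hs : 0 < s) :
    Real.log (1 + s / (2 * x)) ≤ gain x (x + z) s := by
  unfold gain
  have h1 : s / (s + 2 * x + 2 * (x + z)) ≤ s / (2 * (x + z)) := by
    gcongr
    linarith
  have h2 : Real.log (1 + s / (s + 2 * x + 2 * (x + z))) ≤ Real.log (1 + s / (2 * (x + z))) :=
    Real.log_le_log (by positivity) (by linarith)
  linarith

theorem LL_nonneg {κ : ℝ} (hκ : 0 < κ) : 0 ≤ LL κ := by
  unfold LL
  split_ifs with h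
  · norm_num
  · rcases lt_or_gt_of_ne h with h | h
    · refine div_nonneg_of_nonpos ?_ (by linarith)
      exact mul_nonpos_of_nonneg_of_nonpos hκ.le (Real.log_nonpos hκ.le h.le)
    · exact div_nonneg (mul_nonneg hκ.le (Real.log_nonneg h.le)) (by linarith)

/-- the combination -/
theorem comb (h1 : S_z5a) (hc : 1 ≤ c) {d : ℝ} (hd : 0 ≤ d)
    (hD : I3 (fun x z s => Wt c x z s *
      ENNReal.ofReal (Real.log (1 + s / (s + 2 * x + 2 * (x + z))))) ≤ ENNReal.ofReal d) :
    ENNReal.ofReal (((c : ℝ) + 1) * LL ((c : ℝ) / 2) - ((c : ℝ) - 1) * LL (((c : ℝ) + 1) / 2) - d) ≤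
      I3 (fun x z s => Wt c x z s * ENNReal.ofReal (gain x (x + z) s)) := by
  have hc' : (0 : ℝ) < c := by exact_mod_cast hc
  set X := I3 (fun x z s => Wt c x z s * ENNReal.ofReal (gain x (x + z) s)) with hX
  have hgm : Measurable fun p : ℝ × ℝ × ℝ => Wt c p.1 p.2.1 p.2.2 *
      ENNReal.ofReal (gain p.1 (p.1 + p.2.1) p.2.2) := by
    refine (Wt_meas c).mul ?_
    unfold gain
    fun_prop
  have hAm : Measurable fun p : ℝ × ℝ × ℝ => Wt c p.1 p.2.1 p.2.2 *
      ENNReal.ofReal (Real.log (1 + p.2.2 / (2 * p.1))) := by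
    refine (Wt_meas c).mul ?_
    fun_prop
  have e1 : X + I3 (fun x z s => Wt c x z s *
      ENNReal.ofReal (Real.log (1 + s / (s + 2 * x + 2 * (x + z))))) =
      I3 (fun x z s => Wt c x z s * ENNReal.ofReal (Real.log (1 + s / (2 * x)))) +
      I3 (fun x z s => Wt c x z s * ENNReal.ofReal (Real.log (1 + s / (2 * (x + z))))) := by
    rw [hX, ← I3_add (F := fun x z s => Wt c x z s * ENNReal.ofReal (gain x (x + z) s)) _ hgm,
      ← I3_add (F := fun x z s => Wt c x z s * ENNReal.ofReal (Real.log (1 + s / (2 * x)))) _ hAm]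
    refine I3_congr fun x hx z hz s hs => ?_
    have hg := gain_ge hx hz hs
    have hA0 : 0 ≤ Real.log (1 + s / (2 * x)) := Real.log_nonneg (by
      have : 0 ≤ s / (2 * x) := by positivity
      linarith)
    have hB0 : 0 ≤ Real.log (1 + s / (2 * (x + z))) := Real.log_nonneg (by
      have : 0 ≤ s / (2 * (x + z)) := by positivity
      linarith)
    have hD0 : 0 ≤ Real.log (1 + s / (s + 2 * x + 2 * (x + z))) := Real.log_nonneg (by
      have : 0 ≤ s / (s + 2 * x + 2 * (x + z)) := by positivity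
      linarith)
    rw [← mul_add, ← mul_add, ← ENNReal.ofReal_add (by linarith) hD0,
      ← ENNReal.ofReal_add hA0 hB0]
    congr 2
    unfold gain
    ring
  have e2 := I3_A c h1 hc
  have e3 := I3_B c h1 hc
  have hLN := LL_nonneg (κ := ((c : ℝ) + 1) / 2) (by positivity)
  have hLc := LL_nonneg (κ := (c : ℝ) / 2) (by positivity)
  by_cases hXt : X = ⊤
  · rw [hXt]; exact le_top
  have e4 : ENNReal.ofReal (LL (((c : ℝ) + 1) / 2) + ((c : ℝ) + 1) * LL ((c : ℝ) / 2)) ≤
      X + ENNReal.ofReal (d + c * LL (((c : ℝ) + 1) / 2)) := by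
    rw [ENNReal.ofReal_add hLN (by positivity), ENNReal.ofReal_add hd (by positivity), ← e2, ← e3,
      ← add_assoc, ← e1, ← add_assoc]
    gcongr
  have e5 : X = ENNReal.ofReal X.toReal := (ENNReal.ofReal_toReal hXt).symm
  have hX0 : 0 ≤ X.toReal := ENNReal.toReal_nonneg
  rw [e5, ← ENNReal.ofReal_add hX0 (by positivity)] at e4
  have e6 := (ENNReal.ofReal_le_ofReal_iff (by positivity)).1 e4
  rw [e5]
  refine ENNReal.ofReal_le_ofReal ?_
  linarith

theorem HH_two : HH 2 - dC 2 = 1 / 2 + Real.log 2 := by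
  unfold dC ww HH
  rw [if_neg (by norm_num)]
  simp only [Finset.sum_range_succ, Finset.sum_range_zero, Nat.factorial]
  push_cast
  norm_num
  ring

theorem z5 (h1 : S_z5a) (h2 : S_z5b) (h3 : S_z5c) : S_z5 := by
  intro c hc
  obtain ⟨k3, k4, k5, k6, k7⟩ := h3
  show ENNReal.ofReal (HH (c + 1) - dC (c + 1)) ≤
    I3 (fun x z s => Wt c x z s * ENNReal.ofReal (gain x (x + z) s))
  have hcase : c = 1 ∨ c = 2 ∨ c = 3 ∨ c = 4 ∨ c = 5 ∨ 6 ≤ c := by omega
  rcases hcase with rfl | rfl | rfl | rfl | rfl | h6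
  · rw [show (1 + 1 : ℕ) = 2 from rfl, HH_two, ← h2]
    refine le_of_eq ?_
    unfold I3 Wt
    refine lintegral_congr fun x => lintegral_congr fun z => lintegral_congr fun s => ?_
    congr 2
    push_cast
    congr 1
    · ring
    · congr 1; ring
  · refine le_trans (ENNReal.ofReal_le_ofReal ?_) (comb 2 h1 (by norm_num)
      (Real.log_nonneg (by norm_num)) (I3_D32 2 (by norm_num) (by norm_num)))
    refine k3.trans (le_of_eq ?_)
    push_cast
    norm_num
  · refine le_trans (ENNReal.ofReal_le_ofReal ?_) (comb 3 h1 (by norm_num)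
      (Real.log_nonneg (by norm_num)) (I3_D32 3 (by norm_num) (by norm_num)))
    refine k4.trans (le_of_eq ?_)
    push_cast
    norm_num
  · refine le_trans (ENNReal.ofReal_le_ofReal ?_) (comb 4 h1 (by norm_num)
      (Real.log_nonneg (by norm_num)) (I3_D2 4 (by norm_num)))
    refine k5.trans (le_of_eq ?_)
    push_cast
    norm_num
  · refine le_trans (ENNReal.ofReal_le_ofReal ?_) (comb 5 h1 (by norm_num)
      (Real.log_nonneg (by norm_num)) (I3_D2 5 (by norm_num)))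
    refine k6.trans (le_of_eq ?_)
    push_cast
    norm_num
  · have h7 := k7 (c + 1) (by omega)
    refine (ENNReal.ofReal_le_ofReal h7).trans ?_
    rw [show ((c + 1 : ℕ) : ℝ) = (c : ℝ) + 1 by push_cast; ring, ← I3_A c h1 hc]
    refine I3_mono fun x hx z hz s hs => ?_
    gcongr
    exact gain_ge hx hz hs

end Pool.Agent.TH263.LP931
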